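import Pool.Agent.H37.CNE.Stmts

/-!
# Row SLG of the board `cne`: the group of the cover
-/

set_option autoImplicit false

namespace Pool.CND

open Finset Matrix Polynomial

namespace SLGaux

theorem card_SL (F : Type) [Field F] [Finite F] (q : ℕ) (hq : Nat.card F = q) (h2 : 2 ≤ q) :
    Nat.card (SL F) ≤ q * (q ^ 2 - 1) := by
  classical
  have := Fintype.ofFinite F
  have hqc : Fintype.card F = q := by rw [← hq, Nat.card_eq_fintype_card]
  have hGL := Matrix.card_GL_field (𝔽 := F) 2
  rw [Fin.prod_univ_two, hqc] at hGL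
  simp only [Fin.val_zero, Fin.val_one, pow_zero, pow_one] at hGL
  let D : Fˣ → GL (Fin 2) F := fun u =>
    Matrix.GeneralLinearGroup.mkOfDetNeZero !![(u : F), 0; 0, 1]
      (by rw [Matrix.det_fin_two_of]; simp)
  have hD : ∀ u, (D u).1.det = u := by
    intro u
    simp [D, Matrix.GeneralLinearGroup.mkOfDetNeZero, Matrix.det_fin_two_of]
  let e : SL F × Fˣ → GL (Fin 2) F := fun z => Matrix.SpecialLinearGroup.toGL z.1 * D z.2
  have he : Function.Injective e := by
    rintro ⟨g, u⟩ ⟨g', u'⟩ h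
    have h1 : (Matrix.SpecialLinearGroup.toGL g).1.det * (D u).1.det =
        (Matrix.SpecialLinearGroup.toGL g').1.det * (D u').1.det := by
      have h3 := congrArg (fun w : GL (Fin 2) F => w.1.det) h
      simpa [e, Matrix.det_mul] using h3
    rw [hD, hD, Matrix.SpecialLinearGroup.coe_GL_coe_matrix,
      Matrix.SpecialLinearGroup.coe_GL_coe_matrix, g.2, g'.2, one_mul, one_mul] at h1
    have h4 : u = u' := Units.ext h1
    subst h4
    have h5 : Matrix.SpecialLinearGroup.toGL g = Matrix.SpecialLinearGroup.toGL g' :=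
      mul_right_cancel h
    rw [Matrix.SpecialLinearGroup.toGL_injective h5]
  have h1 : Nat.card (SL F × Fˣ) ≤ Nat.card (GL (Fin 2) F) :=
    Nat.card_le_card_of_injective e he
  rw [Nat.card_prod, Nat.card_units, hq, hGL] at h1
  have h6 : q ^ 2 - q = q * (q - 1) := by
    rw [Nat.mul_sub, mul_one, sq]
  rw [h6] at h1
  have h7 : 0 < q - 1 := by omega
  have h8 : Nat.card (SL F) * (q - 1) ≤ (q * (q ^ 2 - 1)) * (q - 1) := by
    calc _ ≤ _ := h1
      _ = _ := by ring
  exact Nat.le_of_mul_le_mul_right h8 h7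

end SLGaux

theorem slg_thm : S_SLG := by
  intro p k F L _ _ _ _ _ f q m s x y hp hchar hf hq hcard hx hy hxy htop hfr
  classical
  have : Fact p.Prime := ⟨hp⟩
  have hq2 : 2 ≤ q := by rw [hq]; exact le_trans hp.two_le (Nat.le_self_pow (by omega) p)
  have : Finite F := Nat.finite_of_card_ne_zero (by omega)
  have : Fintype F := Fintype.ofFinite F
  have hqc : Fintype.card F = q := by rw [← hcard, Nat.card_eq_fintype_card]
  have : CharP L p := charP_of_injective_algebraMap (algebraMap k L).injective p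
  set K := IntermediateField.adjoin k {s} with hK
  have : CharP K p := charP_of_injective_algebraMap (algebraMap k K).injective p
  have hq4 : 4 ≤ q ^ 2 := by nlinarith
  have hpos : 0 < q * (q ^ 2 - 1) := Nat.mul_pos (by omega) (by omega)
  have : FiniteDimensional K L := Module.finite_of_finrank_pos (by rw [hfr]; exact hpos)
  let c : F →+* L := (algebraMap k L).comp (algebraMap F k)
  have hcinj : Function.Injective c := c.injective
  have hcq : ∀ a : F, c a ^ q = c a := fun a => by
    rw [← map_pow, ← hqc, FiniteField.pow_card]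
  have hadd : ∀ u v : L, (u + v) ^ q = u ^ q + v ^ q := fun u v => by
    rw [hq]; exact add_pow_char_pow (p := p) (n := f) u v
  have hlin : ∀ a b : F, c a * x + c b * y = 0 → a = 0 ∧ b = 0 := by
    intro a b h
    have h2 : c a * x ^ q + c b * y ^ q = 0 := by
      have h3 := congrArg (fun w : L => w ^ q) h
      simp only [hadd, mul_pow, hcq] at h3
      rwa [zero_pow (by omega)] at h3
    have ha : c a = 0 := by linear_combination y ^ q * h - y * h2 - c a * hxy
    have hb : c b = 0 := by linear_combination x * h2 - x ^ q * h - c b * hxy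
    exact ⟨hcinj (by rw [ha, map_zero]), hcinj (by rw [hb, map_zero])⟩
  let φ : F × F → L := fun z => c z.1 * x + c z.2 * y
  have hφinj : Function.Injective φ := by
    rintro ⟨a, b⟩ ⟨a', b'⟩ h
    have h1 : c (a - a') * x + c (b - b') * y = 0 := by
      have h2 : c a * x + c b * y = c a' * x + c b' * y := h
      rw [map_sub, map_sub]
      linear_combination h2
    obtain ⟨h3, h4⟩ := hlin _ _ h1
    rw [sub_eq_zero] at h3 h4
    rw [h3, h4]
  let sK : K := IntermediateField.AdjoinSimple.gen k s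
  have hsK : algebraMap K L sK = s := rfl
  let P : K[X] := X ^ (q ^ 2) + (X - C (sK ^ m) * X ^ q)
  have hPev : ∀ z : L, aeval z P = z ^ (q ^ 2) + (z - s ^ m * z ^ q) := by
    intro z
    simp only [P, map_add, map_sub, map_mul, map_pow, aeval_X, aeval_C, hsK]
  have hqq : q < q ^ 2 := by nlinarith
  have hdeg1 : (X - C (sK ^ m) * X ^ q : K[X]).natDegree < q ^ 2 := by
    refine lt_of_le_of_lt (natDegree_sub_le _ _) (max_lt ?_ ?_)
    · rw [natDegree_X]; omega
    · exact lt_of_le_of_lt (natDegree_C_mul_X_pow_le _ _) hqq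
  have hPdeg : P.natDegree = q ^ 2 := by
    have h1 : (X ^ (q ^ 2) : K[X]).natDegree = q ^ 2 := natDegree_X_pow _
    rw [natDegree_add_eq_left_of_natDegree_lt (by rw [h1]; exact hdeg1), h1]
  have hP0 : P ≠ 0 := by
    intro h
    rw [h, natDegree_zero] at hPdeg
    omega
  have hqK : (q : K) = 0 := by
    rw [hq, Nat.cast_pow, CharP.cast_eq_zero, zero_pow (by omega)]
  have hPsep : P.Separable := by
    have h1 : derivative P = 1 := by
      simp only [P, derivative_add, derivative_sub, derivative_X_pow, derivative_X,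
        derivative_C_mul, Nat.cast_pow, hqK]
      simp
    rw [separable_def, h1]
    exact isCoprime_one_right
  have hφroot : ∀ z, aeval (φ z) P = 0 := by
    rintro ⟨a, b⟩
    rw [hPev]
    have h1 : φ (a, b) ^ q = c a * x ^ q + c b * y ^ q := by
      change (c a * x + c b * y) ^ q = _
      rw [hadd, mul_pow, mul_pow, hcq, hcq]
    have h2 : φ (a, b) ^ (q ^ 2) = c a * x ^ (q ^ 2) + c b * y ^ (q ^ 2) := by
      rw [sq q, pow_mul, h1, hadd, mul_pow, mul_pow, hcq, hcq, ← pow_mul, ← pow_mul]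
    rw [h1, h2]
    change c a * x ^ (q ^ 2) + c b * y ^ (q ^ 2) + (c a * x + c b * y -
      s ^ m * (c a * x ^ q + c b * y ^ q)) = 0
    linear_combination c a * hx + c b * hy
  have hmem : ∀ z : L, z ∈ (P.aroots L).toFinset ↔ aeval z P = 0 := by
    intro z
    rw [Multiset.mem_toFinset, mem_aroots]
    exact ⟨fun h => h.2, fun h => ⟨hP0, h⟩⟩
  have hsub : Finset.univ.image φ ⊆ (P.aroots L).toFinset := by
    intro z hz
    obtain ⟨w, _, rfl⟩ := Finset.mem_image.1 hz
    exact (hmem _).2 (hφroot w)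
  have hcardim : (Finset.univ.image φ).card = q ^ 2 := by
    rw [Finset.card_image_of_injective _ hφinj, Finset.card_univ, Fintype.card_prod, hqc, sq]
  have hle : (P.aroots L).toFinset.card ≤ Multiset.card (P.aroots L) :=
    Multiset.toFinset_card_le _
  have hle2 : Multiset.card (P.aroots L) ≤ q ^ 2 := by
    refine le_trans (card_roots' _) ?_
    rw [natDegree_map, hPdeg]
  have hle3 := Finset.card_le_card hsub
  rw [hcardim] at hle3
  have heq : Finset.univ.image φ = (P.aroots L).toFinset :=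
    Finset.eq_of_subset_of_card_le hsub (by rw [hcardim]; omega)
  have hsplit : (P.map (algebraMap K L)).Splits := by
    rw [splits_iff_card_roots, natDegree_map, hPdeg]
    exact le_antisymm hle2 (le_trans hle3 hle)
  have hφx : φ (1, 0) = x := by
    change c 1 * x + c 0 * y = x
    rw [map_one, map_zero, one_mul, zero_mul, add_zero]
  have hφy : φ (0, 1) = y := by
    change c 0 * x + c 1 * y = y
    rw [map_one, map_zero, one_mul, zero_mul, zero_add]
  have hx0 : aeval x P = 0 := by rw [← hφx]; exact hφroot _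
  have hy0 : aeval y P = 0 := by rw [← hφy]; exact hφroot _
  have hxm : x ∈ P.rootSet L := (mem_rootSet_of_ne hP0).2 hx0
  have hym : y ∈ P.rootSet L := (mem_rootSet_of_ne hP0).2 hy0
  have htop2 : ∀ E : IntermediateField K L, x ∈ E → y ∈ E → E = ⊤ := by
    intro E hxE hyE
    have h2 : (⊤ : IntermediateField k L) ≤ E.restrictScalars k := by
      rw [← htop, IntermediateField.adjoin_le_iff]
      rintro z (rfl | rfl | rfl)
      · exact E.algebraMap_mem sK
      · exact hxE
      · exact hyE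
    rw [eq_top_iff]
    intro z _
    exact h2 (IntermediateField.mem_top)
  have hadj : Algebra.adjoin K (P.rootSet L : Set L) = ⊤ := by
    have h1 : IntermediateField.adjoin K (P.rootSet L) = ⊤ :=
      htop2 _ (IntermediateField.subset_adjoin K _ hxm) (IntermediateField.subset_adjoin K _ hym)
    have h2 := IntermediateField.adjoin_toSubalgebra_of_isAlgebraic (F := K) (E := L)
      (S := P.rootSet L) (fun z _ => Algebra.IsAlgebraic.isAlgebraic z)
    rw [← h2, h1, IntermediateField.top_toSubalgebra]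
  have : P.IsSplittingField K L := ⟨hsplit, hadj⟩
  have hgal : IsGalois K L := IsGalois.of_separable_splitting_field hPsep
  have hroot : ∀ (σ : L ≃ₐ[K] L) (z : L), aeval z P = 0 → ∃ w : F × F, φ w = σ z := by
    intro σ z hz
    have h1 : aeval (σ z) P = 0 := by
      have h3 := aeval_algHom_apply (σ : L →ₐ[K] L) z P
      rw [hz, map_zero] at h3
      exact h3
    have h2 : σ z ∈ (P.aroots L).toFinset := (hmem _).2 h1
    rw [← heq] at h2
    obtain ⟨w, _, hw⟩ := Finset.mem_image.1 h2
    exact ⟨w, hw⟩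
  choose u hu using fun σ => hroot σ x hx0
  choose v hv using fun σ => hroot σ y hy0
  have hcσ : ∀ (σ : L ≃ₐ[K] L) (a : F), σ (c a) = c a := by
    intro σ a
    exact (σ.restrictScalars k).commutes (algebraMap F k a)
  have hdet : ∀ σ, (u σ).1 * (v σ).2 - (v σ).1 * (u σ).2 = 1 := by
    intro σ
    apply hcinj
    have h1 : σ (x * y ^ q - x ^ q * y) = 1 := by rw [hxy, map_one]
    rw [map_sub, map_mul, map_mul, map_pow, map_pow, ← hu, ← hv] at h1
    have h2 : φ (u σ) ^ q = c (u σ).1 * x ^ q + c (u σ).2 * y ^ q := by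
      change (c (u σ).1 * x + c (u σ).2 * y) ^ q = _
      rw [hadd, mul_pow, mul_pow, hcq, hcq]
    have h3 : φ (v σ) ^ q = c (v σ).1 * x ^ q + c (v σ).2 * y ^ q := by
      change (c (v σ).1 * x + c (v σ).2 * y) ^ q = _
      rw [hadd, mul_pow, mul_pow, hcq, hcq]
    rw [h2, h3] at h1
    rw [map_sub, map_mul, map_mul, map_one]
    have h4 : (c (u σ).1 * x + c (u σ).2 * y) * (c (v σ).1 * x ^ q + c (v σ).2 * y ^ q) -
      (c (u σ).1 * x ^ q + c (u σ).2 * y ^ q) * (c (v σ).1 * x + c (v σ).2 * y) = 1 := h1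
    linear_combination h4 - (c (u σ).1 * c (v σ).2 - c (v σ).1 * c (u σ).2) * hxy
  have hmulx : ∀ σ τ : L ≃ₐ[K] L, u (σ * τ) =
      ((u σ).1 * (u τ).1 + (v σ).1 * (u τ).2, (u σ).2 * (u τ).1 + (v σ).2 * (u τ).2) := by
    intro σ τ
    apply hφinj
    rw [hu, AlgEquiv.mul_apply, ← hu τ]
    change σ (c (u τ).1 * x + c (u τ).2 * y) = c _ * x + c _ * y
    rw [map_add, map_mul, map_mul, hcσ, hcσ, ← hu, ← hv]
    change c (u τ).1 * (c (u σ).1 * x + c (u σ).2 * y) +
      c (u τ).2 * (c (v σ).1 * x + c (v σ).2 * y) = _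
    simp only [map_add, map_mul]
    ring
  have hmuly : ∀ σ τ : L ≃ₐ[K] L, v (σ * τ) =
      ((u σ).1 * (v τ).1 + (v σ).1 * (v τ).2, (u σ).2 * (v τ).1 + (v σ).2 * (v τ).2) := by
    intro σ τ
    apply hφinj
    rw [hv, AlgEquiv.mul_apply, ← hv τ]
    change σ (c (v τ).1 * x + c (v τ).2 * y) = c _ * x + c _ * y
    rw [map_add, map_mul, map_mul, hcσ, hcσ, ← hu, ← hv]
    change c (v τ).1 * (c (u σ).1 * x + c (u σ).2 * y) +
      c (v τ).2 * (c (v σ).1 * x + c (v σ).2 * y) = _
    simp only [map_add, map_mul]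
    ring
  let Φ : (L ≃ₐ[K] L) →* SL F := MonoidHom.mk' (fun σ =>
    ⟨!![(u σ).1, (v σ).1; (u σ).2, (v σ).2], by rw [Matrix.det_fin_two_of]; exact hdet σ⟩) (by
      intro σ τ
      apply Subtype.ext
      change !![(u (σ * τ)).1, (v (σ * τ)).1; (u (σ * τ)).2, (v (σ * τ)).2] =
        !![(u σ).1, (v σ).1; (u σ).2, (v σ).2] * !![(u τ).1, (v τ).1; (u τ).2, (v τ).2]
      rw [Matrix.mul_fin_two, hmulx, hmuly])
  have hΦ : ∀ σ, (Φ σ).1 = !![(u σ).1, (v σ).1; (u σ).2, (v σ).2] := fun σ => rfl
  have hΦinj : Function.Injective Φ := by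
    intro σ τ h
    have h1 : (Φ σ).1 = (Φ τ).1 := by rw [h]
    rw [hΦ, hΦ] at h1
    have h00 := congrFun (congrFun h1 0) 0
    have h01 := congrFun (congrFun h1 0) 1
    have h10 := congrFun (congrFun h1 1) 0
    have h11 := congrFun (congrFun h1 1) 1
    simp at h00 h01 h10 h11
    have hux : u σ = u τ := Prod.ext h00 h10
    have hvy : v σ = v τ := Prod.ext h01 h11
    have hσx : σ x = τ x := by rw [← hu, ← hu, hux]
    have hσy : σ y = τ y := by rw [← hv, ← hv, hvy]
    have h2 : (σ : L →ₐ[K] L) = (τ : L →ₐ[K] L) := by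
      refine AlgHom.ext_of_adjoin_eq_top hadj ?_
      intro z hz
      have h3 : z ∈ (P.aroots L).toFinset := (hmem z).2 ((mem_rootSet_of_ne hP0).1 hz)
      rw [← heq] at h3
      obtain ⟨w, _, hw⟩ := Finset.mem_image.1 h3
      change σ z = τ z
      rw [← hw]
      change σ (c w.1 * x + c w.2 * y) = τ (c w.1 * x + c w.2 * y)
      rw [map_add, map_mul, map_mul, map_add, map_mul, map_mul, hcσ, hcσ, hcσ, hcσ, hσx, hσy]
    ext z
    exact congrArg (fun g : L →ₐ[K] L => g z) h2
  have hcardG : Nat.card (L ≃ₐ[K] L) = q * (q ^ 2 - 1) := by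
    rw [← hfr]; exact IsGalois.card_aut_eq_finrank K L
  have hΦbij : Function.Bijective Φ := by
    have : Finite (SL F) := Subtype.finite
    have h1 := SLGaux.card_SL F q hcard hq2
    exact hΦinj.bijective_of_nat_card_le (by rw [hcardG]; exact h1)
  let e : (L ≃ₐ[K] L) ≃* SL F := MulEquiv.ofBijective Φ hΦbij
  let ρ : SL F →* (L ≃ₐ[k] L) := (AlgEquiv.restrictScalarsHom k).comp e.symm.toMonoidHom
  have hρ : ∀ g z, ρ g z = e.symm g z := fun g z => rfl
  have hg : ∀ g : SL F, g.1 = !![(u (e.symm g)).1, (v (e.symm g)).1; (u (e.symm g)).2,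
      (v (e.symm g)).2] := by
    intro g
    rw [← hΦ]
    exact congrArg Subtype.val (e.apply_symm_apply g).symm
  refine ⟨ρ, ?_, ?_, ?_, ?_⟩
  · intro g
    rw [hρ]
    exact (e.symm g).commutes sK
  · intro g
    rw [hρ, ← hu, hg g]
    rfl
  · intro g
    rw [hρ, ← hv, hg g]
    rfl
  · intro z hz
    have h1 : z ∈ (⊥ : IntermediateField K L) := by
      rw [IsGalois.mem_bot_iff_fixed]
      intro σ
      have h2 := hz (e σ)
      rw [hρ, e.symm_apply_apply] at h2
      exact h2
    obtain ⟨w, hw⟩ := IntermediateField.mem_bot.1 h1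
    rw [← hw]
    exact w.2

end Pool.CND
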